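import Mathlib
import Pool.Agent.Results.MP_840f9c_gt.IndProduct

/-!
# MP_840f9c_gt: a complete metric factor with a single non-isolated point

A stronger form of the negative answer: the metric space `M` is complete and has exactly one
non-isolated point.
-/

set_option autoImplicit false

namespace Pool.Agent.Results.MP_840f9c_gt.OneLimitPoint

open Set Topology Filter Pool.Agent.Helper520.PM Pool.Agent.Results.MP_840f9c_gt.IndProduct

theorem complete_MM : CompleteSpace MM := by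
  refine Metric.complete_of_cauchySeq_tendsto fun u hu => ?_
  rw [Metric.cauchySeq_iff] at hu
  by_cases h : ∃ ε > 0, ∀ N : ℕ, ∃ n ≥ N, ε ≤ Comet.wt (u n)
  · obtain ⟨ε, hε, h⟩ := h
    obtain ⟨N, hN⟩ := hu ε hε
    obtain ⟨n, hn, hnε⟩ := h N
    refine ⟨u n, tendsto_const_nhds.congr' ?_⟩
    filter_upwards [eventually_ge_atTop N] with m hm
    by_contra hne
    have h1 := hN m hm n hn
    rw [Comet.dist_eq _ _ (fun e => hne e.symm)] at h1
    exact absurd (lt_of_le_of_lt (le_max_right _ _) h1) (not_lt.2 hnε)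
  · push Not at h
    refine ⟨MM.om, Metric.tendsto_atTop.2 fun ε hε => ?_⟩
    obtain ⟨N, hN⟩ := h ε hε
    refine ⟨N, fun n hn => ?_⟩
    by_cases hne : u n = MM.om
    · rw [hne, dist_self]
      exact hε
    · rw [Comet.dist_eq _ _ hne]
      exact max_lt (hN n hn) hε

theorem isOpen_singleton_iff (x : MM) : IsOpen ({x} : Set MM) ↔ x ≠ MM.om := by
  constructor
  · rintro h rfl
    obtain ⟨ε, hε, hb⟩ := Metric.isOpen_iff.1 h MM.om rfl
    obtain ⟨n, hn⟩ := exists_nat_one_div_lt hε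
    have h1 : MM.sm n (fun _ => 0) ∈ Metric.ball MM.om ε := by
      rw [Metric.mem_ball, MM.dist_sm_om]
      exact hn
    have h2 : MM.sm n (fun _ => 0) = MM.om := hb h1
    have h3 : (some (n, fun _ => 0) : Option (ℕ × (ℕ → ℕ))) = none := h2
    exact Option.some_ne_none _ h3
  · intro h
    rcases MM.cases' x with rfl | ⟨n, f, rfl⟩
    · exact absurd rfl h
    · exact MM.isOpen_sm n f

/-- **Stronger negative answer.** There are a complete metric space `M` with exactly one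
non-isolated point `o`, and a nonempty normal Hausdorff space `Y`, such that `M × Y` is normal,
`Ind M = 0`, `Ind Y ≤ 2` and `Ind (M × Y) ≥ 3`; so `Ind M + Ind Y < Ind (M × Y)`. -/
theorem result : ∃ (M Y : Type) (_ : MetricSpace M) (_ : TopologicalSpace Y) (o : M),
    CompleteSpace M ∧ (∀ x : M, IsOpen ({x} : Set M) ↔ x ≠ o) ∧
      Nonempty Y ∧ T2Space Y ∧ NormalSpace Y ∧ T2Space (M × Y) ∧
      NormalSpace (M × Y) ∧ Ind M = ((0 : ℤ) : WithTop ℤ) ∧ Ind Y ≤ ((2 : ℤ) : WithTop ℤ) ∧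
      ((3 : ℤ) : WithTop ℤ) ≤ Ind (M × Y) ∧ Ind M + Ind Y < Ind (M × Y) := by
  obtain ⟨c⟩ := Pool.Agent.Helper520.PM.nonempty_col
  have hT2 : T2Space c.dat.Y := c.dat.t2Space_Y
  have hprod : NormalSpace (Pool.Agent.Helper520.PM.MM × c.dat.Y) := c.dat.normalSpace_prod _
  have hM1 : Ind Pool.Agent.Helper520.PM.MM < ((1 : ℤ) : WithTop ℤ) :=
    (ind_lt_iff 1 _).2 ((indLT_iff 1 _).2 Pool.Agent.Helper520.PM.indLT_MM)
  have hM0 : ¬ Ind Pool.Agent.Helper520.PM.MM < ((0 : ℤ) : WithTop ℤ) := by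
    intro h
    have h1 : IsEmpty Pool.Agent.Helper520.PM.MM := (ind_lt_iff 0 _).1 h
    exact h1.false Pool.Agent.Helper520.PM.MM.om
  have hM : Ind Pool.Agent.Helper520.PM.MM = ((0 : ℤ) : WithTop ℤ) := by
    have h2 := not_lt.1 hM0
    obtain ⟨k, hk⟩ := WithTop.ne_top_iff_exists.1 hM1.ne_top
    rw [← hk] at hM1 h2 ⊢
    rw [WithTop.coe_lt_coe] at hM1
    rw [WithTop.coe_le_coe] at h2
    congr 1
    omega
  have hY : Ind c.dat.Y < ((3 : ℤ) : WithTop ℤ) :=
    (ind_lt_iff 3 _).2 ((indLT_iff 3 _).2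
      (c.dat.indLT_Y c.countable_R c.dense_R c.PL))
  have hY' : Ind c.dat.Y ≤ ((2 : ℤ) : WithTop ℤ) := by
    obtain ⟨k, hk⟩ := WithTop.ne_top_iff_exists.1 hY.ne_top
    rw [← hk] at hY ⊢
    rw [WithTop.coe_lt_coe] at hY
    rw [WithTop.coe_le_coe]
    omega
  have hMY : ((3 : ℤ) : WithTop ℤ) ≤ Ind (Pool.Agent.Helper520.PM.MM × c.dat.Y) := by
    rw [← not_lt]
    intro h
    exact Pool.Agent.Helper520.PM.not_indLT_prod c
      ((indLT_iff 3 _).1 ((ind_lt_iff 3 _).1 h))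
  have hemb : IsClosedEmbedding
      (fun y : c.dat.Y => ((Pool.Agent.Helper520.PM.MM.om, y) :
        Pool.Agent.Helper520.PM.MM × c.dat.Y)) := by
    refine ⟨isEmbedding_prodMkRight _, ?_⟩
    have : range (fun y : c.dat.Y => ((Pool.Agent.Helper520.PM.MM.om, y) :
        Pool.Agent.Helper520.PM.MM × c.dat.Y)) =
        Prod.fst ⁻¹' {Pool.Agent.Helper520.PM.MM.om} := by
      ext ⟨m, y⟩
      simp [eq_comm]
    rw [this]
    exact isClosed_singleton.preimage continuous_fst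
  refine ⟨Pool.Agent.Helper520.PM.MM, c.dat.Y, inferInstance, inferInstance,
    Pool.Agent.Helper520.PM.MM.om, complete_MM, isOpen_singleton_iff,
    ⟨Pool.Agent.Helper520.PM.Tot.base (0, 0)⟩, hT2,
    hemb.normalSpace, inferInstance, hprod, hM, hY', hMY, ?_⟩
  refine lt_of_le_of_lt ?_ (lt_of_lt_of_le (WithTop.coe_lt_coe.2 (by norm_num :
    (2 : ℤ) < 3)) hMY)
  rw [hM]
  simpa using hY'

end Pool.Agent.Results.MP_840f9c_gt.OneLimitPoint
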